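import Pool.Agent.W219.Klarner.Comp

/-!
# MP_fc5d3b_co, Q1: Klarner's constant is the limit of a computable decreasing sequence of rationals

`t n` is the number of fixed `n`-ominoes (`Pool.Agent.W219.Klarner.Defs`).  Splitting a polyomino in
two connected parts, each with at least a quarter of the cells, shows the following: if
`4000 s^4 t(s) ≤ q^s` for all `s` with `K ≤ s ≤ 4 K`, then `λ ≤ q`.  Conversely, for every `q > λ`
this certificate exists for all large `K`.  The certificates are found by a bounded search.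
-/

set_option autoImplicit false

namespace Pool.Agent.Results.MP_fc5d3b_co.KlarnerComputable

open Filter Finset Pool.Agent.W219.Klarner

/-- `r / 2^n` has a certificate with `K ≤ n + 1` -/
def Q (n r : ℕ) : Prop := ∃ j < n + 1, Cert (j + 1) r (2 ^ n)

theorem cert_mono {K r r' D : ℕ} (h : r ≤ r') (hc : Cert K r D) : Cert K r' D :=
  fun s h1 h2 => (hc s h1 h2).trans (Nat.pow_le_pow_left h s)

theorem cert_double {K r D : ℕ} (hc : Cert K r D) : Cert K (2 * r) (D * 2) := by
  intro s h1 h2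
  have := hc s h1 h2
  calc 4000 * s ^ 4 * t s * (D * 2) ^ s = (4000 * s ^ 4 * t s * D ^ s) * 2 ^ s := by
        rw [mul_pow]; ring
    _ ≤ r ^ s * 2 ^ s := Nat.mul_le_mul_right _ this
    _ = (2 * r) ^ s := by rw [mul_pow]; ring

theorem Q_mono {n r r' : ℕ} (h : r ≤ r') (hc : Q n r) : Q n r' := by
  obtain ⟨j, hj, h1⟩ := hc
  exact ⟨j, hj, cert_mono h h1⟩

theorem Q_succ {n r : ℕ} (hc : Q n r) : Q (n + 1) (2 * r) := by
  obtain ⟨j, hj, h1⟩ := hc
  refine ⟨j, by omega, ?_⟩
  have := cert_double h1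
  rwa [← pow_succ] at this

theorem pr_cert : PrimrecPred fun p : ℕ × ℕ × ℕ => Cert p.1 p.2.1 p.2.2 := by
  refine pr_forall (f := fun p : ℕ × ℕ × ℕ => 4 * p.1 + 1)
    (Primrec.nat_add.comp (Primrec.nat_mul.comp (.const 4) Primrec.fst) (.const 1))
    (P := fun p s => p.1 ≤ s → 4000 * s ^ 4 * t s * p.2.2 ^ s ≤ p.2.1 ^ s) ?_
  refine pr_imp (Primrec.nat_le.comp (Primrec.fst.comp Primrec.fst) Primrec.snd) ?_
  refine Primrec.nat_le.comp ?_ ?_
  · exact Primrec.nat_mul.comp (Primrec.nat_mul.comp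
      (Primrec.nat_mul.comp (.const 4000) (pr_pow.comp Primrec.snd (.const 4)))
      (pr_t.comp Primrec.snd))
      (pr_pow.comp (Primrec.snd.comp (Primrec.snd.comp Primrec.fst)) Primrec.snd)
  · exact pr_pow.comp (Primrec.fst.comp (Primrec.snd.comp Primrec.fst)) Primrec.snd

theorem pr_Q : PrimrecRel Q := by
  refine pr_exists (f := fun p : ℕ × ℕ => p.1 + 1)
    (Primrec.nat_add.comp Primrec.fst (.const 1))
    (P := fun p j => Cert (j + 1) p.2 (2 ^ p.1)) ?_
  exact pr_cert.comp (Primrec.pair (Primrec.nat_add.comp Primrec.snd (.const 1))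
    (Primrec.pair (Primrec.snd.comp Primrec.fst)
      (pr_pow.comp (.const 2) (Primrec.fst.comp Primrec.fst))))

open Classical in
/-- the least `r` with `Q n r`, for `M` large -/
noncomputable def rN (M n : ℕ) : ℕ := ((Finset.range (2 ^ n * M)).filter (fun r => ¬ Q n r)).card

theorem pr_rN (M : ℕ) : Primrec (rN M) := by
  classical
  have h := pr_count (f := fun n : ℕ => 2 ^ n * M)
    (Primrec.nat_mul.comp (pr_pow.comp (.const 2) .id) (.const M)) (P := fun n r => ¬ Q n r)
    (PrimrecPred.not pr_Q)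
  exact h.of_eq (fun n => by unfold rN; congr)

theorem Q_start {M : ℕ} (hM : ∀ s : ℕ, 1 ≤ s → s ≤ 4 → 4000 * s ^ 4 * t s ≤ M ^ s) (n : ℕ) :
    Q n (2 ^ n * M) := by
  refine ⟨0, by omega, ?_⟩
  intro s h1 h2
  calc 4000 * s ^ 4 * t s * (2 ^ n) ^ s ≤ M ^ s * (2 ^ n) ^ s :=
        Nat.mul_le_mul_right _ (hM s (by omega) (by omega))
    _ = (2 ^ n * M) ^ s := by rw [mul_pow]; ring

theorem rN_spec {M : ℕ} (hM : ∀ s : ℕ, 1 ≤ s → s ≤ 4 → 4000 * s ^ 4 * t s ≤ M ^ s) (n : ℕ) :
    Q n (rN M n) ∧ ∀ r, Q n r → rN M n ≤ r := by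
  classical
  have hex : ∃ r, Q n r := ⟨_, Q_start hM n⟩
  have hle : Nat.find hex ≤ 2 ^ n * M := Nat.find_min' hex (Q_start hM n)
  have hset : (Finset.range (2 ^ n * M)).filter (fun r => ¬ Q n r) = Finset.range (Nat.find hex) := by
    ext r
    rw [mem_filter, mem_range, mem_range]
    constructor
    · rintro ⟨_, h⟩
      by_contra hlt
      push Not at hlt
      exact h (Q_mono hlt (Nat.find_spec hex))
    · intro h
      exact ⟨by omega, Nat.find_min hex h⟩
  have heq : rN M n = Nat.find hex := by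
    have h1 : rN M n = ((Finset.range (2 ^ n * M)).filter (fun r => ¬ Q n r)).card := by
      unfold rN; congr
    rw [h1, hset, card_range]
  rw [heq]
  exact ⟨Nat.find_spec hex, fun r hr => Nat.find_min' hex hr⟩

/-- **Klarner's constant is computable from above.** The limit `λ` of `t(n)^(1/n)` exists, and there
are primitive recursive functions `a, b` with `b > 0` such that the rational numbers `a(n) / b(n)`
are strictly decreasing and converge to `λ`. -/
theorem result : ∃ lam : ℝ,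
    Tendsto (fun n : ℕ => (t n : ℝ) ^ (1 / (n : ℝ))) atTop (nhds lam) ∧
    ∃ a b : ℕ → ℕ, Primrec a ∧ Primrec b ∧ (∀ n, 0 < b n) ∧
      StrictAnti (fun n => (a n : ℚ) / (b n : ℚ)) ∧
      Tendsto (fun n => (a n : ℝ) / (b n : ℝ)) atTop (nhds lam) := by
  obtain ⟨lam, h0, hlim, hle⟩ := exists_lam
  obtain ⟨M, hM1, hM⟩ := exists_M
  refine ⟨lam, hlim, fun n => rN M n * (n + 1) + 2 ^ n, fun n => 2 ^ n * (n + 1), ?_, ?_, ?_, ?_, ?_⟩
  · exact Primrec.nat_add.comp (Primrec.nat_mul.comp (pr_rN M)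
      (Primrec.nat_add.comp .id (.const 1))) (pr_pow.comp (.const 2) .id)
  · exact Primrec.nat_mul.comp (pr_pow.comp (.const 2) .id) (Primrec.nat_add.comp .id (.const 1))
  · intro n; positivity
  · apply strictAnti_nat_of_succ_lt
    intro n
    have h1 : rN M (n + 1) ≤ 2 * rN M n := (rN_spec hM (n + 1)).2 _ (Q_succ (rN_spec hM n).1)
    have h2 : (rN M (n + 1) : ℚ) ≤ 2 * rN M n := by exact_mod_cast h1
    have e1 : (((rN M n * (n + 1) + 2 ^ n : ℕ) : ℚ)) / ((2 ^ n * (n + 1) : ℕ) : ℚ) =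
        (rN M n : ℚ) / 2 ^ n + 1 / ((n : ℚ) + 1) := by
      push_cast; field_simp
    have e2 : (((rN M (n + 1) * ((n + 1 : ℕ) + 1) + 2 ^ (n + 1) : ℕ) : ℚ)) /
        ((2 ^ (n + 1) * ((n + 1 : ℕ) + 1) : ℕ) : ℚ) =
        (rN M (n + 1) : ℚ) / 2 ^ (n + 1) + 1 / ((n : ℚ) + 1 + 1) := by
      push_cast; field_simp
    rw [e1, e2]
    have h3 : (rN M (n + 1) : ℚ) / 2 ^ (n + 1) ≤ (rN M n : ℚ) / 2 ^ n := by
      rw [div_le_div_iff₀ (by positivity) (by positivity), pow_succ]
      nlinarith [pow_pos (by norm_num : (0 : ℚ) < 2) n]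
    have h4 : 1 / ((n : ℚ) + 1 + 1) < 1 / ((n : ℚ) + 1) :=
      one_div_lt_one_div_of_lt (by positivity) (by linarith)
    linarith
  · -- convergence
    have e1 : ∀ n : ℕ, (((rN M n * (n + 1) + 2 ^ n : ℕ) : ℝ)) / ((2 ^ n * (n + 1) : ℕ) : ℝ) =
        (rN M n : ℝ) / 2 ^ n + 1 / ((n : ℝ) + 1) := by
      intro n
      push_cast; field_simp
    have hlow : ∀ n : ℕ, lam ≤ (rN M n : ℝ) / 2 ^ n := by
      intro n
      obtain ⟨j, _, hj⟩ := (rN_spec hM n).1
      have := cert_upper hlim (K := j + 1) (by omega) (by positivity : 0 < 2 ^ n) hj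
      push_cast at this
      exact this
    have hmain : Tendsto (fun n : ℕ => (rN M n : ℝ) / 2 ^ n) atTop (nhds lam) := by
      rw [Metric.tendsto_atTop]
      intro ε hε
      obtain ⟨K0, hK1, hK0⟩ := cert_exists h0 hle (q := lam + ε / 2) (by linarith)
      obtain ⟨n1, hn1⟩ := exists_pow_lt_of_lt_one (by positivity : (0 : ℝ) < ε / 2)
        (by norm_num : (1 / 2 : ℝ) < 1)
      refine ⟨max K0 n1, fun n hn => ?_⟩
      have hnK : K0 ≤ n := (le_max_left _ _).trans hn
      have hnn : n1 ≤ n := (le_max_right _ _).trans hn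
      have h2n : (0 : ℝ) < 2 ^ n := by positivity
      set r := ⌈2 ^ n * (lam + ε / 2)⌉₊ with hr
      have hr1 : 2 ^ n * (lam + ε / 2) ≤ r := Nat.le_ceil _
      have hr2 : (r : ℝ) < 2 ^ n * (lam + ε / 2) + 1 := Nat.ceil_lt_add_one (by positivity)
      have hQ : Q n r := by
        refine ⟨n, by omega, ?_⟩
        apply hK0 (n + 1) (by omega) r (2 ^ n) (by positivity)
        push_cast
        rw [le_div_iff₀ h2n]
        linarith
      have h3 : (rN M n : ℝ) ≤ r := by exact_mod_cast (rN_spec hM n).2 r hQ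
      have h4 : (rN M n : ℝ) / 2 ^ n < lam + ε / 2 + (1 / 2) ^ n := by
        rw [div_lt_iff₀ h2n]
        have : (lam + ε / 2 + (1 / 2) ^ n) * 2 ^ n = 2 ^ n * (lam + ε / 2) + 1 := by
          rw [add_mul, ← mul_pow]; norm_num; ring
        linarith
      have h5 : (1 / 2 : ℝ) ^ n ≤ (1 / 2) ^ n1 :=
        pow_le_pow_of_le_one (by norm_num) (by norm_num) hnn
      rw [Real.dist_eq, abs_lt]
      constructor
      · have := hlow n; linarith
      · linarith
    have h6 : Tendsto (fun n : ℕ => 1 / ((n : ℝ) + 1)) atTop (nhds 0) :=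
      tendsto_one_div_add_atTop_nhds_zero_nat
    have h7 := hmain.add h6
    rw [add_zero] at h7
    exact h7.congr (fun n => (e1 n).symm)

end Pool.Agent.Results.MP_fc5d3b_co.KlarnerComputable
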